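import Mathlib

/-!
Baire category toolkit: Borel maps are continuous on residual sets; finite supports of
neighbourhoods in product spaces.
-/

namespace Pool.Agent.H38.Baire

open Set Filter Topology TopologicalSpace

theorem exists_continuousOn {Z Y : Type} [TopologicalSpace Z] [TopologicalSpace Y]
    [SecondCountableTopology Y] {f : Z → Y} (hf : @Measurable Z Y (borel Z) (borel Y) f) :
    ∃ C ∈ residual Z, ContinuousOn f C := by
  let := borel Z
  let := borel Y
  have : BorelSpace Z := ⟨rfl⟩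
  have : BorelSpace Y := ⟨rfl⟩
  have h : ∀ U : countableBasis Y, ∃ O, IsOpen O ∧ ∀ᶠ x in residual Z, (f x ∈ U.1 ↔ x ∈ O) := by
    intro U
    obtain ⟨O, h1, h2⟩ :=
      (hf (isOpen_of_mem_countableBasis U.2).measurableSet).residualEq_isOpen
    exact ⟨O, h1, h2.mono fun x hx => iff_of_eq hx⟩
  choose O hO hO' using h
  have := (countable_countableBasis Y).to_subtype
  refine ⟨{x | ∀ U : countableBasis Y, f x ∈ U.1 ↔ x ∈ O U}, eventually_countable_forall.2 hO', ?_⟩
  rw [continuousOn_iff_continuous_domRestrict, (isBasis_countableBasis Y).continuous_iff]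
  intro U hU
  have : (domRestrict {x | ∀ U : countableBasis Y, f x ∈ U.1 ↔ x ∈ O U} f) ⁻¹' U =
      Subtype.val ⁻¹' O ⟨U, hU⟩ := by
    ext x; exact x.2 ⟨U, hU⟩
  rw [this]
  exact (hO _).preimage continuous_subtype_val

theorem nhds_supp {ι : Type} {β : ι → Type} [∀ i, TopologicalSpace (β i)] {x : ∀ i, β i}
    {s : Set (∀ i, β i)} (hs : s ∈ 𝓝 x) :
    ∃ I : Finset ι, ∀ y, (∀ i ∈ I, y i = x i) → y ∈ s := by
  rw [nhds_pi, Filter.mem_pi] at hs
  obtain ⟨I, hI, t, ht, h⟩ := hs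
  exact ⟨hI.toFinset, fun y hy => h fun i hi => by
    rw [hy i (by simpa using hi)]; exact mem_of_mem_nhds (ht i)⟩

theorem nhds_supp2 {ι κ β : Type} [TopologicalSpace β] {x : ι → κ → β}
    {s : Set (ι → κ → β)} (hs : s ∈ 𝓝 x) :
    ∃ (I : Finset ι) (J : Finset κ), ∀ y, (∀ i ∈ I, ∀ j ∈ J, y i j = x i j) → y ∈ s := by
  classical
  rw [nhds_pi, Filter.mem_pi] at hs
  obtain ⟨I, hI, t, ht, h⟩ := hs
  choose J hJ using fun i => nhds_supp (ht i)
  refine ⟨hI.toFinset, hI.toFinset.biUnion J, fun y hy => h fun i hi => hJ i _ fun j hj => ?_⟩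
  have hi' : i ∈ hI.toFinset := by simpa using hi
  exact hy i hi' j (Finset.mem_biUnion.2 ⟨i, hi', hj⟩)

theorem isOpen_cyl2 {ι κ β : Type} [TopologicalSpace β] [DiscreteTopology β] (x : ι → κ → β)
    (I : Finset ι) (J : Finset κ) : IsOpen {y : ι → κ → β | ∀ i ∈ I, ∀ j ∈ J, y i j = x i j} := by
  have : {y : ι → κ → β | ∀ i ∈ I, ∀ j ∈ J, y i j = x i j} =
      ⋂ i ∈ I, ⋂ j ∈ J, (fun y : ι → κ → β => y i j) ⁻¹' {x i j} := by
    ext y; simp
  rw [this]
  exact isOpen_biInter_finset fun i _ => isOpen_biInter_finset fun j _ =>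
    (isOpen_discrete _).preimage (by fun_prop)

theorem exists_shift {G : Type} [Group G] [Infinite G] (T : Finset G) :
    ∃ g : G, ∀ t ∈ T, g⁻¹ * t ∉ T := by
  classical
  obtain ⟨g, hg⟩ := Infinite.exists_notMem_finset ((T ×ˢ T).image fun p => p.1 * p.2⁻¹)
  refine ⟨g, fun t ht h => hg (Finset.mem_image.2 ⟨(t, g⁻¹ * t), by simp [ht, h], by simp⟩)⟩

end Pool.Agent.H38.Baire
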